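import Mathlib
import Pool.Agent.H11R3.RechtRe.Sys

set_option autoImplicit false

/-!
# The upper half of the Recht-Ré inequality fails

For real symmetric positive semidefinite `A₁, …, Aₙ` with `A₁ + ⋯ + Aₙ ≤ n I` let `S_m` be the sum of
`A (j₁) ⋯ A (j_m)` over all `m`-tuples of distinct indices.  The conjectured bound
`S_m ≤ n! / (n - m)! I` fails for `m = n` for every `n ≥ 10`, and by a factor that grows
exponentially in `n`.

Idea.  If the `A i` have size `d` and the `B j` have size `d'`, then the `n + n'` matrices `A i ⊗ I`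
and `I ⊗ B j` satisfy the hypothesis again, and since the two groups commute, the sum over all
orderings of them is `binomial (n + n') n` times `S_n (A) ⊗ S_n' (B)`.  So violations of the *lower*
bound by factors `c, c' > 1` give a violation of the *upper* bound by the factor `c c'`.  For `n = 5`
there are explicit `3 × 3` matrices (entries in `ℤ / 8`) for which `S_5` has the eigenvalue
`-3945088 / 32768 < -120`.
-/

namespace Pool.Agent.Results.MP_6eb00f_an.UpperHalfFails

open Matrix
open scoped Nat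

/-- `S m A`: the sum of the products `A (j 0) * A (j 1) * ⋯ * A (j (m - 1))` over all `m`-tuples
`j` of pairwise distinct indices in `Fin n`. -/
noncomputable def S {n d : ℕ} (m : ℕ) (A : Fin n → Matrix (Fin d) (Fin d) ℝ) :
    Matrix (Fin d) (Fin d) ℝ :=
  ∑ j : Fin m ↪ Fin n, (List.ofFn fun i => A (j i)).prod

/-- The hypothesis (H): all `A i` are positive semidefinite (in particular symmetric) and
`n I - (A₁ + ⋯ + Aₙ)` is positive semidefinite. -/
def HypH {n d : ℕ} (A : Fin n → Matrix (Fin d) (Fin d) ℝ) : Prop :=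
  (∀ i, (A i).PosSemidef) ∧ ((n : ℝ) • (1 : Matrix (Fin d) (Fin d) ℝ) - ∑ i, A i).PosSemidef

/-- For all `k` and all `n ≥ 10 k` there are matrices satisfying (H) for which `S n A` has an
eigenvalue `μ ≥ 1.0065 ^ k * n!`. For `k = 1` this is larger than the conjectured bound
`n! = n! / (n - m)!`, `m = n`, so the conjecture fails for `m = n` and every `n ≥ 10`. -/
theorem result (k n : ℕ) (hn : 10 * k ≤ n) :
    ∃ (d : ℕ) (A : Fin n → Matrix (Fin d) (Fin d) ℝ) (v : Fin d → ℝ) (μ : ℝ),
      1 ≤ d ∧ HypH A ∧ v ≠ 0 ∧ S n A *ᵥ v = μ • v ∧ (1.0065 : ℝ) ^ k * (n ! : ℝ) ≤ μ := by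
  have h10 := (Pool.Agent.H11R3.RechtRe.Sys.five.mul Pool.Agent.H11R3.RechtRe.Sys.five).pow k
  obtain ⟨t, rfl⟩ := Nat.exists_eq_add_of_le hn
  obtain ⟨d, A, v, hd, hv, hA, hA', hS⟩ := h10.mul (Pool.Agent.H11R3.RechtRe.Sys.one t)
  refine ⟨d, A, v, _, hd, ⟨hA, hA'⟩, hv, hS, ?_⟩
  rw [mul_one]
  refine mul_le_mul_of_nonneg_right ?_ (by positivity)
  apply pow_le_pow_left₀ (by norm_num)
  norm_num

end Pool.Agent.Results.MP_6eb00f_an.UpperHalfFails
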